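import Pool.Agent.HF.Stmts
import Pool.Agent.Helper4_CD.Dua

set_option autoImplicit false

/-!
# Squad HF, module DUAH: duality of vector spaces over the skew field with involution
-/

namespace Pool.Agent.HF.H53

open Pool.Agent.Glue Pool.Agent.FB Pool.Agent.CD Pool.Agent.HF

noncomputable section

section inv

variable {G : Type} [Group G] (h : HFd G)

lemma io_one : h.io 1 = 1 := by
  have := h.io_sg 1
  rwa [inv_one, map_one] at this

/-- The square of the involution, as a ring homomorphism. -/
def sq : h.D →+* h.D where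
  toFun x := h.io (h.io x)
  map_one' := by rw [io_one, io_one]
  map_mul' x y := by rw [h.io_mul, h.io_mul]
  map_zero' := by rw [map_zero, map_zero]
  map_add' x y := by rw [map_add, map_add]

lemma io_io (x : h.D) : h.io (h.io x) = x := by
  have h1 : DS h.sg Set.univ ≤ RingHom.eqLocusField (sq h) (RingHom.id h.D) := by
    refine Subfield.closure_le.2 ?_
    rintro _ ⟨g, _, rfl⟩
    change h.io (h.io (h.sg g)) = h.sg g
    rw [h.io_sg, h.io_sg, inv_inv]
  have h2 : x ∈ DS h.sg Set.univ := by
    rw [h.gen]
    exact Subfield.mem_top x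
  exact h1 h2

lemma io_smul (c : F2) (x : h.D) : h.io (c • x) = c • h.io x :=
  ZMod.map_smul h.io c x

end inv

/-- DUAH -/
theorem duah : DuahStmt := by
  intro G _ h I _ C n hcoh x hx hx0
  let D : I → I → h.D := fun k i => (C.bd k i).coeff.sum fun g c => (c : F2) • h.sg g
  have hdelta : ∀ f k, delta C (lm h.sg) f k = ∑ i, D k i * f i := by
    intro f k
    refine Finset.sum_congr rfl fun i _ => ?_
    simp only [D, Finsupp.sum, Finset.sum_mul, smul_mul_assoc]
    rfl
  have hpart : ∀ x j, h.io (part C (lm h.sg) x j) = ∑ i, h.io (x i) * D i j := by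
    intro x j
    change h.io (∑ i, (C.bd i j).coeff.sum fun g c => (c : F2) • (h.sg g⁻¹ * (x i))) = _
    rw [map_sum]
    refine Finset.sum_congr rfl fun i _ => ?_
    simp only [D, Finsupp.sum, Finset.mul_sum, map_sum, io_smul]
    refine Finset.sum_congr rfl fun g _ => ?_
    rw [h.io_mul, h.io_sg, inv_inv, mul_smul_comm]
  obtain ⟨z, hz, hz1⟩ := Pool.Agent.CD.H4.col_row D C.deg (fun k i h0 => C.bd_deg k i (by
      intro h1
      apply h0
      simp only [D, h1]
      exact Finsupp.sum_zero_index)) n (by
      intro f hf hf0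
      obtain ⟨g, _, hg⟩ := hcoh f hf (by
        funext k
        rw [hdelta]
        exact hf0 k)
      refine ⟨g, fun k => ?_⟩
      rw [← hdelta, hg])
    (fun i => h.io (x i)) (fun i hi => by rw [hx i hi, map_zero]) (fun j => by
      rw [← hpart, hx0]
      exact map_zero h.io)
  refine ⟨fun i => h.io (z i), fun i hi => by
    dsimp only
    rw [hz i hi, map_zero], ?_⟩
  funext j
  have h3 : h.io (part C (lm h.sg) (fun i => h.io (z i)) j) = h.io (x j) := by
    rw [hpart]
    simp only [io_io]
    exact hz1 j
  rw [← io_io h (part C (lm h.sg) (fun i => h.io (z i)) j), h3, io_io]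

end

end Pool.Agent.HF.H53
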